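import Pool.Agent.Lib_helper11.GK.Main

/-!
Connected Hopf algebras over an arbitrary field have integral or infinite GK dimension.

`Pool.Agent.GK.IsConnectedBialgebra k H` says that the coradical of `H`, the sum of all simple
subcoalgebras, is the line spanned by `1`; `Pool.Agent.GK.GKdim k H` is the supremum over the
finite-dimensional subspaces `V` containing `1` of `limsup log (dim V^n) / log n`, word for word
as in the frozen statement.

Outline of the proof.  (1) Every finite-dimensional subspace lies in the span `D` of `1` and
elements `c 0, ..., c (m-1)` with `Δ c_j - c_j ⊗ 1 - 1 ⊗ c_j` in `D_j ⊗ D_j`, `D_j` the span of
`1` and the `c_i`, `i < j` (`flag_pr`, helper77).  (2) With the weight `3^j` for `c_j` the words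
of bounded weight form a multiplicative and comultiplicative filtration for which the `c_j` are
primitive modulo lower terms (`filt_pr`, helper16).  (3) Iterated commutators with the `c_j`
either stop producing new elements modulo lower terms, or produce one of weight at most
`W (n + 1)` for each `n` (`dich_pr`, helper82).  (4) In the second case the products over subsets
are linearly independent modulo lower terms, so the growth is at least `exp (c sqrt n)`
(`ind_pr`, helper82).  (5) In the first case ordered monomials span, and the standard ones, with
exponents in a down-closed set, form a basis (`pbw_pr`); the number of such exponents of bounded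
weight lies between two multiples of `n^r` (`dick_pr`, helper14).  Final assembly: helper14.
-/

set_option autoImplicit false

universe u v

namespace Pool.Agent.Results.MP_49c8ed_al.ConnectedHopf

/-- The Gelfand-Kirillov dimension of a connected bialgebra (in particular of a connected Hopf
algebra) over any field of any characteristic is a natural number or infinite. -/
theorem result (k : Type u) [Field k] (H : Type v) [Ring H] [Bialgebra k H]
    (hc : Pool.Agent.GK.IsConnectedBialgebra k H) :
    Pool.Agent.GK.GKdim k H = ⊤ ∨ ∃ m : ℕ, Pool.Agent.GK.GKdim k H = (m : ENNReal) :=
  Pool.Agent.GK.main_pr k H hc

end Pool.Agent.Results.MP_49c8ed_al.ConnectedHopf
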