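import Mathlib
import Pool.Agent.Lib_helper11.CUB.Final
import Pool.Agent.Lib_helper11.CUB.Explicit
import Pool.Agent.Lib_helper3.CYC.Both
import Pool.Agent.Lib_helper3.CYC.Poly

/-!
# Both signs of the Liouville function along the minimal polynomials of a cubic field

For an integer `θ` of a cubic field `K`, `θ ∉ ℚ`, let `f_θ` be its minimal polynomial over `ℤ`, so
that `f_{vθ}(X) = v^3 f_θ(X/v)`. We show that `λ` takes both signs along `f_{vθ}(n)`, infinitely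
often and in short intervals, for every `θ` if `K` is Galois over `ℚ`, and for all `θ` outside of at
most two exceptional classes for every cubic field `K`. The same holds for every completely
multiplicative `h` with values `±1` which is not identically `1`.
-/

namespace Pool.Agent.Results.MP_892e4c_nt.CubicFieldSigns

open Polynomial

/-- The Liouville function extended to the integers: `λ(0) = 0` and, for `m ≠ 0`,
`λ(m) = (-1)^Ω(|m|)`, where `Ω` counts prime factors with multiplicity. -/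
def liouville (m : ℤ) : ℤ :=
  if m = 0 then 0 else (-1) ^ (ArithmeticFunction.cardFactors m.natAbs)

/-- Completely multiplicative functions on the positive integers with values `1` and `-1`. -/
structure SignFunction (h : ℕ → ℤ) : Prop where
  values : ∀ m : ℕ, 1 ≤ m → h m = 1 ∨ h m = -1
  mul : ∀ m n : ℕ, 1 ≤ m → 1 ≤ n → h (m * n) = h m * h n

/-- Both signs of `h(|f(n)|)` occur for `n` in every interval `[x, C x^k]`, `x ≥ 1`. -/
def BothSigns (h : ℕ → ℤ) (f : ℤ[X]) (C k : ℕ) : Prop :=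
  ∀ x : ℕ, 1 ≤ x → ∀ s : ℤ, (s = 1 ∨ s = -1) →
    ∃ n : ℕ, x ≤ n ∧ n ≤ C * x ^ k ∧ h (f.eval (n : ℤ)).natAbs = s

/-- The polynomial `X^3 - κ (2 P^3 + 3 S^2) X^2 + κ^2 (P^6 + 6 P^3 S^2 + 3 S^4) X
- κ^3 S^2 (2 P^3 - S^2)^2`, with the root `κ (P x + S)^2` if `x^3 = P x - S`. -/
noncomputable def squareCubic (P S κ : ℤ) : ℤ[X] :=
  X ^ 3 - C (κ * (2 * P ^ 3 + 3 * S ^ 2)) * X ^ 2 +
    C (κ ^ 2 * (P ^ 6 + 6 * P ^ 3 * S ^ 2 + 3 * S ^ 4)) * X -
    C (κ ^ 3 * S ^ 2 * (2 * P ^ 3 - S ^ 2) ^ 2)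

/-- The polynomial `X^3 - A X^2 - M (A + 3 M) X - M^3`. -/
noncomputable def cyclicCubic (A M : ℤ) : ℤ[X] :=
  X ^ 3 - C A * X ^ 2 - C (M * (A + 3 * M)) * X - C (M ^ 3)

theorem result :
    -- (1) Galois cubic fields: every integer `θ ∉ ℚ`
    (∀ (K : Type) [Field K] [NumberField K] [IsGalois ℚ K], Module.finrank ℚ K = 3 →
      ∀ θ : K, IsIntegral ℤ θ → θ ∉ (⊥ : IntermediateField ℚ K) → ∀ p : ℕ, p.Prime →
        ∃ m : ℕ, 1 ≤ m ∧ ∀ v : ℕ, 1 ≤ v → m ∣ v → ∃ C : ℕ,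
          ∀ h : ℕ → ℤ, SignFunction h → h p = -1 →
            BothSigns h (minpoly ℤ ((v : K) * θ)) C 2) ∧
    -- (2) all cubic fields: all integers `θ ∉ ℚ` outside of at most two classes
    (∀ (K : Type) [Field K] [NumberField K], Module.finrank ℚ K = 3 →
      ∀ h : ℕ → ℤ, SignFunction h → ∀ p : ℕ, p.Prime → h p = -1 →
        ∃ τ₁ τ₂ : K, ∀ θ : K, IsIntegral ℤ θ → θ ∉ (⊥ : IntermediateField ℚ K) →
          (¬ ∃ r w : ℚ, 0 < r ∧ θ = r * τ₁ + w) → (¬ ∃ r w : ℚ, 0 < r ∧ θ = r * τ₂ + w) →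
          ∃ m : ℕ, 1 ≤ m ∧ ∀ v : ℕ, 1 ≤ v → m ∣ v → ∀ N : ℕ, ∀ s : ℤ, (s = 1 ∨ s = -1) →
            ∃ n : ℕ, N ≤ n ∧ h ((minpoly ℤ ((v : K) * θ)).eval (n : ℤ)).natAbs = s) ∧
    -- (3) all cubic fields: one of two given generators
    (∀ (K : Type) [Field K] [NumberField K], Module.finrank ℚ K = 3 →
      ∀ α β : K, IsIntegral ℤ α → IsIntegral ℤ β → α ∉ (⊥ : IntermediateField ℚ K) →
        (∃ a y z : ℚ, 0 < a ∧ α ^ 2 = a * β + y * α + z) →
        (∃ a y z : ℚ, 0 < a ∧ β ^ 2 = a * α + y * β + z) → ∀ p : ℕ, p.Prime →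
        ∃ m : ℕ, 1 ≤ m ∧ ∀ v : ℕ, 1 ≤ v → m ∣ v → ∃ C : ℕ,
          ∀ h : ℕ → ℤ, SignFunction h → h p = -1 → ∀ x : ℕ, 1 ≤ x →
            ∃ γ : K, (γ = α ∨ γ = β) ∧ ∀ s : ℤ, (s = 1 ∨ s = -1) →
              ∃ n : ℕ, x ≤ n ∧ n ≤ C * x ^ 2 ∧
                h ((minpoly ℤ ((v : K) * γ)).eval (n : ℤ)).natAbs = s) ∧
    -- (4) all cubic fields: explicit generators
    (∀ (K : Type) [Field K] [NumberField K], Module.finrank ℚ K = 3 →
      (∃ P S : ℤ, P ≠ 0 ∧ ∃ x : K, x ∉ (⊥ : IntermediateField ℚ K) ∧ x ^ 3 - P * x + S = 0) ∧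
      ∀ P S : ℤ, P ≠ 0 → ∀ x : K, x ∉ (⊥ : IntermediateField ℚ K) → x ^ 3 - P * x + S = 0 →
        (∀ κ : ℤ, κ ≠ 0 → minpoly ℤ ((κ : K) * (P * x + S) ^ 2) = squareCubic P S κ ∧
          IntermediateField.adjoin ℚ {(κ : K) * (P * x + S) ^ 2} =
            (⊤ : IntermediateField ℚ K)) ∧
        ∀ p : ℕ, p.Prime → ∃ m : ℕ, 1 ≤ m ∧ ∀ κ : ℕ, 1 ≤ κ → m ∣ κ → ∃ C : ℕ,
          ∀ h : ℕ → ℤ, SignFunction h → h p = -1 → BothSigns h (squareCubic P S κ) C 6) ∧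
    -- (5) every Galois cubic field: explicit generators, without a scaling
    (∀ A M c : ℤ, 2 ≤ |M| → ∃ C : ℕ, ∀ h : ℕ → ℤ, SignFunction h →
      (∃ p : ℕ, p.Prime ∧ (p : ℤ) ∣ M ∧ h p = -1) →
        BothSigns h ((cyclicCubic A M).comp (X + Polynomial.C c)) C 2) ∧
    (∀ (K : Type) [Field K] [NumberField K] [IsGalois ℚ K], Module.finrank ℚ K = 3 →
      ∃ A M : ℤ, 2 ≤ |M| ∧ ∃ ρ : K, minpoly ℤ ρ = cyclicCubic A M ∧
        IntermediateField.adjoin ℚ {ρ} = (⊤ : IntermediateField ℚ K)) ∧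
    -- (6) `λ` is one of the functions `h`
    (SignFunction (fun m : ℕ => liouville m) ∧ ∀ p : ℕ, p.Prime → liouville p = -1) := by
  have hcm : ∀ h : ℕ → ℤ, SignFunction h → Pool.Agent.Lib_helper11.CUB.CM h :=
    fun h hh => ⟨hh.values, hh.mul⟩
  have hcm3 : ∀ h : ℕ → ℤ, SignFunction h → Pool.Agent.Lib_helper3.CYC.CM h :=
    fun h hh => ⟨hh.values, hh.mul⟩
  refine ⟨?_, ?_, ?_, ?_, ?_, ?_, ?_, ?_⟩
  · intro K _ _ _ h3 θ hint hθ p hp
    obtain ⟨m, hm, H⟩ := Pool.Agent.Lib_helper11.CUB.cyclic_final h3 hint hθ hp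
    refine ⟨m, hm, fun v hv hmv => ?_⟩
    obtain ⟨C, hC⟩ := H v hv hmv
    exact ⟨C, fun h hh hp1 x hx s hs => hC h (hcm h hh) hp1 x hx s hs⟩
  · intro K _ _ h3 h hh p hp hp1
    exact Pool.Agent.Lib_helper11.CUB.classes_final h3 (hcm h hh) hp hp1
  · intro K _ _ h3 α β hα hβ hα0 hab hba p hp
    obtain ⟨a, y, z, ha, e⟩ := hab
    obtain ⟨a', y', z', ha', e'⟩ := hba
    obtain ⟨m, hm, H⟩ := Pool.Agent.Lib_helper11.CUB.pair_final h3 hα hβ hα0 ha e ha' e' hp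
    refine ⟨m, hm, fun v hv hmv => ?_⟩
    obtain ⟨C, hC⟩ := H v hv hmv
    exact ⟨C, fun h hh hp1 x hx => hC h (hcm h hh) hp1 x hx⟩
  · intro K _ _ h3
    refine ⟨?_, ?_⟩
    · obtain ⟨P, S, x, hx, hx0, hP, -⟩ := Pool.Agent.Lib_helper11.CUB.exists_good (K := K) h3
      exact ⟨P, S, hP, x, hx0, hx⟩
    · intro P S hP x hx0 hx
      obtain ⟨h1, h2⟩ := Pool.Agent.Lib_helper11.CUB.square_final h3 hx hx0 hP
      refine ⟨h1, fun p hp => ?_⟩
      obtain ⟨m, hm, H⟩ := h2 p hp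
      refine ⟨m, hm, fun κ hκ hmκ => ?_⟩
      obtain ⟨C, hC⟩ := H κ hκ hmκ
      exact ⟨C, fun h hh hp1 x hx s hs => hC h (hcm h hh) hp1 x hx s hs⟩
  · intro A M c hM
    have hM0 : M ≠ 0 := by rintro rfl; norm_num at hM
    obtain ⟨C, hC⟩ := Pool.Agent.Lib_helper3.CYC.both_div (A := A) hM0 c
    refine ⟨C, fun h hh hp x hx s hs => ?_⟩
    obtain ⟨p, hp1, hp2, hp3⟩ := hp
    obtain ⟨n, h1, h2, h4⟩ := hC h (hcm3 h hh) ⟨p, hp1.one_lt.le, hp2, hp3⟩ x hx s hs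
    refine ⟨n, h1, h2, ?_⟩
    rw [← h4]
    congr 2
    simp only [cyclicCubic, Pool.Agent.Lib_helper3.CYC.fv, eval_comp, eval_add, eval_sub, eval_mul,
      eval_pow, eval_X, eval_C]
  · intro K _ _ _ h3
    exact Pool.Agent.Lib_helper3.CYC.exists_field K h3
  · refine ⟨?_, ?_⟩
    · intro m hm
      have : (m : ℤ) ≠ 0 := by exact_mod_cast (by omega : m ≠ 0)
      simp only [liouville, if_neg this]
      exact neg_one_pow_eq_or ℤ _
    · intro m n hm hn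
      have h1 : (m : ℤ) ≠ 0 := by exact_mod_cast (by omega : m ≠ 0)
      have h2 : (n : ℤ) ≠ 0 := by exact_mod_cast (by omega : n ≠ 0)
      have h3 : ((m * n : ℕ) : ℤ) ≠ 0 := by push_cast; exact mul_ne_zero h1 h2
      simp only [liouville, if_neg h1, if_neg h2, if_neg h3, Int.natAbs_natCast]
      rw [ArithmeticFunction.cardFactors_mul (by omega) (by omega), pow_add]
  · intro p hp
    have : (p : ℤ) ≠ 0 := by exact_mod_cast hp.ne_zero
    simp only [liouville, if_neg this, Int.natAbs_natCast,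
      ArithmeticFunction.cardFactors_apply_prime hp]
    norm_num

end Pool.Agent.Results.MP_892e4c_nt.CubicFieldSigns
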