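import Mathlib
import Pool.Agent.Lib_helper3.CYC.Both
import Pool.Agent.Lib_helper3.CYC.Poly

/-!
# Both signs of the Liouville function along explicit cyclic cubic polynomials

Let `f = X^3 - A X^2 - M (A + 3 M) X - M^3` with integers `A`, `M`, `|M| ≥ 2`. For every `x ≥ 1` both
signs of `λ(f(n))` occur in `[x, K x^2]`, with `K` independent of `x`, and the same holds for all
translates of `f`. Instead of `λ` one can take every completely multiplicative `h` with values `±1`
for which `h(p) = -1` for one prime `p ∣ M`. For `|M| = 1` (Shanks' simplest cubics) it suffices that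
the sign `-1` occurs once; it does if `5 ∣ A - M` and `h(5) = -1`. Every cyclic cubic field is generated
by a root of such an `f`, `|M| ≥ 2`.
-/

namespace Pool.Agent.Results.MP_892e4c_nt.CyclicCubicSigns

open Polynomial

/-- The Liouville function extended to the integers: `λ(0) = 0` and, for `m ≠ 0`,
`λ(m) = (-1)^Ω(|m|)`, where `Ω` counts prime factors with multiplicity. -/
def liouville (m : ℤ) : ℤ :=
  if m = 0 then 0 else (-1) ^ (ArithmeticFunction.cardFactors m.natAbs)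

/-- Completely multiplicative functions on the positive integers with values `1` and `-1`. -/
structure SignFunction (h : ℕ → ℤ) : Prop where
  values : ∀ m : ℕ, 1 ≤ m → h m = 1 ∨ h m = -1
  mul : ∀ m n : ℕ, 1 ≤ m → 1 ≤ n → h (m * n) = h m * h n

/-- The polynomial `X^3 - A X^2 - M (A + 3 M) X - M^3`. -/
noncomputable def cyclicCubic (A M : ℤ) : ℤ[X] :=
  X ^ 3 - C A * X ^ 2 - C (M * (A + 3 * M)) * X - C (M ^ 3)

/-- (1) If `|M| ≥ 2`, then for every integer `c` there is `K` such that both signs of `λ(f(n + c))`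
occur in every interval `[x, K x^2]`, `x ≥ 1`, where `f = cyclicCubic A M`. (2) The same holds, with
one `K`, for every completely multiplicative `h` with values `±1` such that `h(p) = -1` for at least
one prime `p ∣ M`. (3) If `|M| = 1` the same holds, in `[x, K x^4]`, for every `h` which takes the value
`-1` at one `|f(m)|`, and for every `h` with `h(5) = -1` if `5 ∣ A - M`. (4) The discriminant of `f` is a
square, `f` is irreducible for every odd `M`, and every Galois cubic field is generated by an element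
with minimal polynomial `cyclicCubic A M`, `|M| ≥ 2`. -/
theorem result :
    (∀ A M c : ℤ, 2 ≤ |M| →
      ∃ K : ℕ, ∀ x : ℕ, 1 ≤ x → ∀ s : ℤ, (s = 1 ∨ s = -1) →
        ∃ n : ℕ, x ≤ n ∧ n ≤ K * x ^ 2 ∧
          liouville ((cyclicCubic A M).eval ((n : ℤ) + c)) = s) ∧
    (∀ A M c : ℤ, M ≠ 0 →
      ∃ K : ℕ, ∀ h : ℕ → ℤ, SignFunction h → (∃ p : ℕ, p.Prime ∧ (p : ℤ) ∣ M ∧ h p = -1) →
        ∀ x : ℕ, 1 ≤ x → ∀ s : ℤ, (s = 1 ∨ s = -1) →
          ∃ n : ℕ, x ≤ n ∧ n ≤ K * x ^ 2 ∧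
            h ((cyclicCubic A M).eval ((n : ℤ) + c)).natAbs = s) ∧
    (∀ A M c : ℤ, |M| = 1 → ∀ h : ℕ → ℤ, SignFunction h →
      ((∃ m : ℤ, h ((cyclicCubic A M).eval m).natAbs = -1) ∨ (5 ∣ A - M ∧ h 5 = -1)) →
      ∃ K : ℕ, ∀ x : ℕ, 1 ≤ x → ∀ s : ℤ, (s = 1 ∨ s = -1) →
        ∃ n : ℕ, x ≤ n ∧ n ≤ K * x ^ 4 ∧
          h ((cyclicCubic A M).eval ((n : ℤ) + c)).natAbs = s) ∧
    (∀ A M : ℤ, (cyclicCubic A M).discr = (M * (A ^ 2 + 3 * A * M + 9 * M ^ 2)) ^ 2) ∧
    (∀ A M : ℤ, Odd M → Irreducible ((cyclicCubic A M).map (Int.castRingHom ℚ))) ∧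
    (∀ (F : Type) [Field F] [NumberField F] [IsGalois ℚ F], Module.finrank ℚ F = 3 →
      ∃ A M : ℤ, 2 ≤ |M| ∧ ∃ ρ : F, minpoly ℤ ρ = cyclicCubic A M ∧
        IntermediateField.adjoin ℚ {ρ} = (⊤ : IntermediateField ℚ F)) := by
  have heval : ∀ A M n : ℤ,
      (cyclicCubic A M).eval n = Pool.Agent.Lib_helper3.CYC.fv A M n := by
    intro A M n
    simp only [cyclicCubic, Pool.Agent.Lib_helper3.CYC.fv, eval_sub, eval_mul, eval_pow, eval_X,
      eval_C]
  have hcm : ∀ h : ℕ → ℤ, SignFunction h → Pool.Agent.Lib_helper3.CYC.CM h :=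
    fun h hh => ⟨hh.values, hh.mul⟩
  have hlam : SignFunction (fun m : ℕ => liouville m) := by
    refine ⟨?_, ?_⟩
    · intro m hm
      have : (m : ℤ) ≠ 0 := by exact_mod_cast (by omega : m ≠ 0)
      simp only [liouville, if_neg this]
      exact neg_one_pow_eq_or ℤ _
    · intro m n hm hn
      have h1 : (m : ℤ) ≠ 0 := by exact_mod_cast (by omega : m ≠ 0)
      have h2 : (n : ℤ) ≠ 0 := by exact_mod_cast (by omega : n ≠ 0)
      have h3 : ((m * n : ℕ) : ℤ) ≠ 0 := by push_cast; exact mul_ne_zero h1 h2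
      simp only [liouville, if_neg h1, if_neg h2, if_neg h3, Int.natAbs_natCast]
      rw [ArithmeticFunction.cardFactors_mul (by omega) (by omega), pow_add]
  have hnat : ∀ z : ℤ, liouville ((z.natAbs : ℕ) : ℤ) = liouville z := by
    intro z
    by_cases hz : z = 0
    · subst hz; simp [liouville]
    · have : ((z.natAbs : ℕ) : ℤ) ≠ 0 := by
        have := Int.natAbs_ne_zero.2 hz
        exact_mod_cast this
      simp only [liouville, if_neg this, if_neg hz, Int.natAbs_natCast]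
  have h2 : ∀ A M c : ℤ, M ≠ 0 →
      ∃ K : ℕ, ∀ h : ℕ → ℤ, SignFunction h → (∃ p : ℕ, p.Prime ∧ (p : ℤ) ∣ M ∧ h p = -1) →
        ∀ x : ℕ, 1 ≤ x → ∀ s : ℤ, (s = 1 ∨ s = -1) →
          ∃ n : ℕ, x ≤ n ∧ n ≤ K * x ^ 2 ∧
            h ((cyclicCubic A M).eval ((n : ℤ) + c)).natAbs = s := by
    intro A M c hM
    obtain ⟨K, hK⟩ := Pool.Agent.Lib_helper3.CYC.both_div (A := A) hM c
    refine ⟨K, fun h hh hp x hx s hs => ?_⟩
    obtain ⟨p, hp1, hp2, hp3⟩ := hp
    simp only [heval]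
    exact hK h (hcm h hh) ⟨p, hp1.one_lt.le, hp2, hp3⟩ x hx s hs
  refine ⟨?_, h2, ?_, Pool.Agent.Lib_helper3.CYC.cyc_discr,
    fun A M hM => Pool.Agent.Lib_helper3.CYC.cyc_irreducible hM, ?_⟩
  · intro A M c hM
    have hM0 : M ≠ 0 := by rintro rfl; norm_num at hM
    have hMn : M.natAbs ≠ 1 := by
      intro h
      have : ((M.natAbs : ℕ) : ℤ) = 1 := by exact_mod_cast h
      rw [Int.natCast_natAbs] at this
      omega
    obtain ⟨p, hp, hpM⟩ := Nat.exists_prime_and_dvd hMn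
    obtain ⟨K, hK⟩ := h2 A M c hM0
    refine ⟨K, fun x hx s hs => ?_⟩
    obtain ⟨n, h1, h2, h3⟩ := hK (fun m : ℕ => liouville m) hlam
      ⟨p, hp, Int.natCast_dvd.2 hpM, by
        have : (p : ℤ) ≠ 0 := by exact_mod_cast hp.ne_zero
        simp only [liouville, if_neg this, Int.natAbs_natCast,
          ArithmeticFunction.cardFactors_apply_prime hp]
        norm_num⟩ x hx s hs
    refine ⟨n, h1, h2, ?_⟩
    rw [← hnat]; exact h3
  · intro A M c hM h hh hyp
    obtain ⟨m, hm⟩ : ∃ m : ℤ, h (Pool.Agent.Lib_helper3.CYC.fv A M m).natAbs = -1 := by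
      rcases hyp with ⟨m, hm⟩ | ⟨h1, h2⟩
      · exact ⟨m, by rw [← heval]; exact hm⟩
      · exact Pool.Agent.Lib_helper3.CYC.five (hcm h hh) h2 hM h1
    obtain ⟨K, hK⟩ := Pool.Agent.Lib_helper3.CYC.both_one (A := A) hM c m
    refine ⟨K, fun x hx s hs => ?_⟩
    simp only [heval]
    exact hK h (hcm h hh) hm x hx s hs
  · intro F _ _ _ h3
    exact Pool.Agent.Lib_helper3.CYC.exists_field F h3

end Pool.Agent.Results.MP_892e4c_nt.CyclicCubicSigns
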