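import Pool.Agent.Lib_helper12.Cubic.Merge
import Pool.Agent.Lib_helper12.Cubic.Field

/-!
# Sign changes of the Liouville function along cyclic cubic polynomials

`cubic A t = X^3 - A X^2 - (A t + 3 t^2) X - t^3`, `liouville` is the Liouville function on `ℤ`.
-/

set_option autoImplicit false

open Polynomial Pool.Agent.Lib_helper11.Cubic

/-- Let `t ≥ 1`, `A` be integers such that `f = X^3 - A X^2 - (A t + 3 t^2) X - t^3` is irreducible.
(a) If `t` is even, or `t = l r` with `l > 0`, `λ(l) = -1` and (`A < -r` or `l ∣ A ± r`), or `t = 1`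
and `λ(f(m)) = -1` for one integer `m` or (`λ(D) = -1`, `D ∣ A - 5u - 1`, `D = u^2 + (u+1)^2`, for
one integer `u`), then both signs of `λ(f(n))` occur in `[N, 2 N^4]` for all large `N`.
(b) If `t ≥ 2` both signs of `λ(f(n))` occur with `N ≤ |n| ≤ 3 N^4`, `n ∈ ℤ`, for all large `N`.
(c) Every cyclic cubic field contains a root of an irreducible `f` of this form with `t` even. -/
theorem Pool.Agent.Results.MP_892e4c_nt.CyclicCubics.result :
    (∀ t A : ℤ, 1 ≤ t → Irreducible (cubic A t) →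
      (Even t ∨
        (∃ l r : ℤ, t = l * r ∧ 0 < l ∧ liouville l = -1 ∧ (A < -r ∨ l ∣ A + r ∨ l ∣ A - r)) ∨
        (t = 1 ∧ ((∃ m : ℤ, liouville ((cubic A t).eval m) = -1) ∨
          ∃ u : ℤ, liouville (u ^ 2 + (u + 1) ^ 2) = -1 ∧
            u ^ 2 + (u + 1) ^ 2 ∣ A - 5 * u - 1))) →
      ∃ N₀ : ℕ, ∀ N : ℕ, N₀ ≤ N → ∀ s : ℤ, s = 1 ∨ s = -1 →
        ∃ n : ℕ, N ≤ n ∧ n ≤ 2 * N ^ 4 ∧ liouville ((cubic A t).eval (n : ℤ)) = s) ∧
    (∀ t A : ℤ, 2 ≤ t → Irreducible (cubic A t) →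
      ∃ N₀ : ℕ, ∀ N : ℕ, N₀ ≤ N → ∀ s : ℤ, s = 1 ∨ s = -1 →
        ∃ n : ℤ, (N : ℤ) ≤ |n| ∧ |n| ≤ 3 * (N : ℤ) ^ 4 ∧
          liouville ((cubic A t).eval n) = s) ∧
    (∀ (K : Type) [Field K] [NumberField K] [IsGalois ℚ K], Module.finrank ℚ K = 3 →
      ∃ t A : ℤ, 1 ≤ t ∧ Even t ∧ Irreducible (cubic A t) ∧
        ∃ θ : K, aeval θ (cubic A t) = 0) := by
  refine ⟨?_, ?_, ?_⟩
  · intro t A ht hirr h
    have hF := (cubic_irreducible_iff A t).mp hirr
    rcases h with h | h | ⟨rfl, h⟩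
    · exact Pool.H12.Cubic.both_good ht hF (Or.inl h)
    · exact Pool.H12.Cubic.both_good ht hF (Or.inr h)
    · exact Pool.H12.Cubic.both_one h
  · intro t A ht hirr
    exact Pool.H12.Cubic.both_abs ht ((cubic_irreducible_iff A t).mp hirr)
  · intro K _ _ _ h3
    obtain ⟨t, A, h1, h2, h4, θ, hθ⟩ := Pool.H12.Cubic.exists_cubic_field K h3
    refine ⟨t, A, h1, h2, ?_, θ, ?_⟩
    · rw [cubic_irreducible_iff]
      intro n
      rw [Pool.H12.Cubic.F11]
      exact h4 n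
    · have e : cubic A t = Pool.H12.Cubic.cub t A := by
        unfold cubic Pool.H12.Cubic.cub
        have e1 : A * t + 3 * t ^ 2 = t * (A + 3 * t) := by ring
        rw [e1]
      rw [e]; exact hθ
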