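import Pool.Agent.Lib_helper11.SD.Main

/-!
# The Tate conjecture in codimension one for elliptic surfaces with a section of order two

Let `K` be a number field, let `A`, `B` be polynomials over the integers of `K`, regarded as forms
of degree `2 n` and `4 n`, and let `D = A ^ 2 - 4 B`. Suppose that each of the sets of zeros of `B`
and of `D` in the projective line over `Qbar` has two elements, or an even number of elements, at
least eight, whose even permutations are all induced by elements of the Galois group of `K` that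
fix the other set pointwise. Let `ρ` be the `2`-adic representation of the Galois group on
`H¹(ℙ¹, j_* R¹ f_* ℚ_2)(1)` for the elliptic surface `y ^ 2 = x (x ^ 2 + A(t) x + B(t))`, or any
continuous representation of the same dimension, the number of zeros of `B` and `D` minus `4`, with
the same traces of Frobenius elements, that preserves a nondegenerate symmetric bilinear form. Then
for every prime `ℓ` no representation with the same traces of Frobenius elements has Tate classes:
no open subgroup of the Galois group acts trivially on a nonzero subquotient.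

The zeros need not be simple, nothing is assumed on inertia groups or on the image of `ρ`.
-/

set_option autoImplicit false

namespace Pool.Agent.Results.MP_97f789_ag.EllipticSurfaces

open NumberField Polynomial Pool.Agent.TT Pool.Agent.TD Pool.Agent.SD

theorem result {K : Type} [Field K] [NumberField K] [Algebra K Qbar] {n : ℕ}
    (A B : (𝓞 K)[X]) (hA : A.natDegree ≤ 2 * n)
    (hB : Large K (pz (4 * n) B) (pz (4 * n) (A ^ 2 - 4 * B)))
    (hD : Large K (pz (4 * n) (A ^ 2 - 4 * B)) (pz (4 * n) B)) {N : ℕ}
    (hN : N + 4 = (pz (4 * n) B).ncard + (pz (4 * n) (A ^ 2 - 4 * B)).ncard)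
    (ρ : (Qbar ≃ₐ[K] Qbar) →* Matrix (Fin N) (Fin N) ℚ_[2])
    (hρ : Continuous ρ) (hρt : HasTraces (fun σ => (ρ σ).trace) n A B)
    (J : Matrix (Fin N) (Fin N) ℚ_[2]) (hJ : J.transpose = J)
    (hJ0 : J.det ≠ 0) (hJρ : ∀ σ, (ρ σ).transpose * J * ρ σ = J)
    {ℓ : ℕ} [Fact ℓ.Prime] {V : Type} [AddCommGroup V] [Module (PadicAlgCl ℓ) V]
    [FiniteDimensional (PadicAlgCl ℓ) V] (π : Representation (PadicAlgCl ℓ) (Qbar ≃ₐ[K] Qbar) V)
    (hπ : HasTraces (fun σ => LinearMap.trace (PadicAlgCl ℓ) V (π σ)) n A B)
    (H : Subgroup (Qbar ≃ₐ[K] Qbar)) (hH : IsOpen (H : Set (Qbar ≃ₐ[K] Qbar)))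
    (W₁ W₂ : Submodule (PadicAlgCl ℓ) V) (hW : W₁ ≤ W₂)
    (hT : ∀ σ ∈ H, ∀ x ∈ W₂, π σ x - x ∈ W₁) : W₁ = W₂ :=
  main A B hA hB hD hN ρ hρ hρt J hJ hJ0 hJρ π hπ H hH W₁ W₂ hW hT

end Pool.Agent.Results.MP_97f789_ag.EllipticSurfaces
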