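import Pool.Agent.Lib_helper11.TD.Main

/-!
# The Tate conjecture in codimension one for elliptic surfaces with a section of order two

Let `K` be a number field, `n ≥ 2`, and let `A`, `B` be polynomials over the integers of `K` with
`deg A ≤ 2 n` and `deg B = deg D = 4 n`, where `D = A ^ 2 - 4 B`. Suppose that `B` and `D` are
separable and that the Galois group of `K` acts doubly transitively on the roots of `B` and on the
roots of `D`. Let `ρ` be the `2`-adic representation of the Galois group on
`H¹(ℙ¹, j_* R¹ f_* ℚ_2)(1)` for the elliptic surface `y ^ 2 = x (x ^ 2 + A(t) x + B(t))`, or any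
continuous representation of dimension `8 n - 4` with the same traces of Frobenius elements that
preserves a nondegenerate symmetric bilinear form. Suppose that one element of the Galois group
acts as a reflection in `ρ` and as a transposition on the roots of `B`, fixing the roots of `D`,
and that another element acts as a reflection in `ρ` and as a transposition on the roots of `D`,
fixing the roots of `B` (by the Picard-Lefschetz formula such elements are found in the inertia
groups at primes where exactly two roots of `B`, or of `D`, come together). Then for every prime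
`ℓ` no representation with the same traces of Frobenius elements has Tate classes: no open
subgroup of the Galois group acts trivially on a nonzero subquotient.
-/

set_option autoImplicit false

namespace Pool.Agent.Lib_helper11.Superseded.EllipticSurfacesD

open NumberField Polynomial Pool.Agent.TT Pool.Agent.TD

theorem result {K : Type} [Field K] [NumberField K] [Algebra K Qbar] {n : ℕ} (hn : 2 ≤ n)
    (A B : (𝓞 K)[X]) (hA : A.natDegree ≤ 2 * n) (hB : B.natDegree = 4 * n)
    (hD : (A ^ 2 - 4 * B).natDegree = 4 * n)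
    (hBs : (B.map (algebraMap (𝓞 K) K)).Separable)
    (hDs : ((A ^ 2 - 4 * B).map (algebraMap (𝓞 K) K)).Separable)
    (hB2 : TwoTransitive B) (hD2 : TwoTransitive (A ^ 2 - 4 * B))
    (ρ : (Qbar ≃ₐ[K] Qbar) →* Matrix (Fin (8 * n - 4)) (Fin (8 * n - 4)) ℚ_[2])
    (hρ : Continuous ρ) (hρt : HasTraces (fun σ => (ρ σ).trace) n A B)
    (J : Matrix (Fin (8 * n - 4)) (Fin (8 * n - 4)) ℚ_[2]) (hJ : J.transpose = J)
    (hJ0 : J.det ≠ 0) (hJρ : ∀ σ, (ρ σ).transpose * J * ρ σ = J)
    (hr₁ : HasReflection ρ B (A ^ 2 - 4 * B)) (hr₂ : HasReflection ρ (A ^ 2 - 4 * B) B)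
    {ℓ : ℕ} [Fact ℓ.Prime] {V : Type} [AddCommGroup V] [Module (PadicAlgCl ℓ) V]
    [FiniteDimensional (PadicAlgCl ℓ) V] (π : Representation (PadicAlgCl ℓ) (Qbar ≃ₐ[K] Qbar) V)
    (hπ : HasTraces (fun σ => LinearMap.trace (PadicAlgCl ℓ) V (π σ)) n A B)
    (H : Subgroup (Qbar ≃ₐ[K] Qbar)) (hH : IsOpen (H : Set (Qbar ≃ₐ[K] Qbar)))
    (W₁ W₂ : Submodule (PadicAlgCl ℓ) V) (hW : W₁ ≤ W₂)
    (hT : ∀ σ ∈ H, ∀ x ∈ W₂, π σ x - x ∈ W₁) : W₁ = W₂ :=
  main hn A B hA hB hD hBs hDs hB2 hD2 ρ hρ hρt J hJ hJ0 hJρ hr₁ hr₂ π hπ H hH W₁ W₂ hW hT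

end Pool.Agent.Lib_helper11.Superseded.EllipticSurfacesD
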