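import Mathlib
import Pool.Agent.Lib_helper11.CUB2.Und
import Pool.Agent.Lib_helper3.CUBL.Final
import Pool.Agent.Lib_helper3.CYC.Both
import Pool.Agent.Lib_helper3.CYC.Poly
import Pool.Agent.Lib_helper65.PC.C
import Pool.Agent.Lib_helper96.CUB.Example

/-!
# Both signs of the Liouville function along irreducible cubic polynomials

For an integer `t` of a cubic field `K`, `t ∉ ℚ`, let `f_t` be its minimal polynomial over `ℤ`, so
that `f_{vt}(X) = v^3 f_t(X/v)`. We show that `λ` takes both signs, infinitely often and in short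
intervals, along `f_t` or along `f_{vt^2}` for every `K` and `t`; along `f_{vt}` for every `t` if `K`
is Galois over `ℚ`, and for all `t` outside of at most two classes in every cubic field; and along
explicit polynomials. The same holds for every completely multiplicative `h` with values `±1` which
is not identically `1`.
-/

namespace Pool.Agent.Results.MP_892e4c_nt.IrreducibleCubics

open Polynomial

/-- The Liouville function extended to the integers: `λ(0) = 0` and, for `m ≠ 0`,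
`λ(m) = (-1)^Ω(|m|)`, where `Ω` counts prime factors with multiplicity. -/
def liouville (m : ℤ) : ℤ :=
  if m = 0 then 0 else (-1) ^ (ArithmeticFunction.cardFactors m.natAbs)

/-- Completely multiplicative functions on the positive integers with values `1` and `-1`. -/
structure SignFunction (h : ℕ → ℤ) : Prop where
  values : ∀ m : ℕ, 1 ≤ m → h m = 1 ∨ h m = -1
  mul : ∀ m n : ℕ, 1 ≤ m → 1 ≤ n → h (m * n) = h m * h n

/-- Both signs of `h(|f(n)|)` occur for `n` in `[x, X]`. -/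
def Both (h : ℕ → ℤ) (f : ℤ[X]) (x X : ℕ) : Prop :=
  ∀ s : ℤ, (s = 1 ∨ s = -1) → ∃ n : ℕ, x ≤ n ∧ n ≤ X ∧ h (f.eval (n : ℤ)).natAbs = s

/-- (1) All cubic fields, all integers `t ∉ ℚ`, no dilation of `t`: one of `f_t`, `f_{v t^2}`. -/
def A1 : Prop :=
  ∀ (K : Type) [Field K] [NumberField K], Module.finrank ℚ K = 3 →
    ∀ t : K, IsIntegral ℤ t → t ∉ (⊥ : IntermediateField ℚ K) → ∀ p : ℕ, p.Prime →
      ∃ m : ℕ, 1 ≤ m ∧ ∀ v : ℕ, 1 ≤ v → m ∣ v → ∃ C : ℕ,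
        ∀ h : ℕ → ℤ, SignFunction h → h p = -1 → ∀ x : ℕ, 1 ≤ x →
          Both h (minpoly ℤ t) x (C * x ^ 4) ∨
          Both h (minpoly ℤ ((v : K) * t ^ 2)) x (C * x ^ 4)

/-- (2) Galois cubic fields: every integer `t ∉ ℚ`. -/
def A2 : Prop :=
  ∀ (K : Type) [Field K] [NumberField K] [IsGalois ℚ K], Module.finrank ℚ K = 3 →
    ∀ t : K, IsIntegral ℤ t → t ∉ (⊥ : IntermediateField ℚ K) → ∀ p : ℕ, p.Prime →
      ∃ m : ℕ, 1 ≤ m ∧ ∀ v : ℕ, 1 ≤ v → m ∣ v → ∃ C : ℕ,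
        ∀ h : ℕ → ℤ, SignFunction h → h p = -1 → ∀ x : ℕ, 1 ≤ x →
          Both h (minpoly ℤ ((v : K) * t)) x (C * x ^ 2) ∧
          ∀ s : ℤ, (s = 1 ∨ s = -1) →
            Real.log x / (4 * Real.log (C + 2)) - 1 ≤ (((Finset.Icc 1 x).filter (fun n : ℕ =>
              h ((minpoly ℤ ((v : K) * t)).eval (n : ℤ)).natAbs = s)).card : ℝ)

/-- (3) All cubic fields: all integers `t ∉ ℚ` outside of at most two classes. -/
def A3 : Prop :=
  ∀ (K : Type) [Field K] [NumberField K], Module.finrank ℚ K = 3 →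
    ∀ h : ℕ → ℤ, SignFunction h → ∀ p : ℕ, p.Prime → h p = -1 →
      ∃ T₁ T₂ : K, ∀ t : K, IsIntegral ℤ t → t ∉ (⊥ : IntermediateField ℚ K) →
        (¬ ∃ r w : ℚ, 0 < r ∧ t = r * T₁ + w) → (¬ ∃ r w : ℚ, 0 < r ∧ t = r * T₂ + w) →
        ∃ m : ℕ, 1 ≤ m ∧ ∀ v : ℕ, 1 ≤ v → m ∣ v → ∀ N : ℕ, ∀ s : ℤ, (s = 1 ∨ s = -1) →
          ∃ n : ℕ, N ≤ n ∧ h ((minpoly ℤ ((v : K) * t)).eval (n : ℤ)).natAbs = s

/-- (4) All cubic fields: one of two given integers. -/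
def A4 : Prop :=
  ∀ (K : Type) [Field K] [NumberField K], Module.finrank ℚ K = 3 →
    ∀ a b : K, IsIntegral ℤ a → IsIntegral ℤ b → a ∉ (⊥ : IntermediateField ℚ K) →
      (∃ r y z : ℚ, 0 < r ∧ a ^ 2 = r * b + y * a + z) →
      (∃ r y z : ℚ, 0 < r ∧ b ^ 2 = r * a + y * b + z) → ∀ p : ℕ, p.Prime →
      ∃ m : ℕ, 1 ≤ m ∧ ∀ v : ℕ, 1 ≤ v → m ∣ v → ∃ C : ℕ,
        ∀ h : ℕ → ℤ, SignFunction h → h p = -1 → ∀ x : ℕ, 1 ≤ x →
          Both h (minpoly ℤ ((v : K) * a)) x (C * x ^ 2) ∨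
          Both h (minpoly ℤ ((v : K) * b)) x (C * x ^ 2)

/-- (5) All cubic fields: the generators `(P x + S)^2`, `x^3 = P x - S`. -/
def A5 : Prop :=
  ∀ (K : Type) [Field K] [NumberField K], Module.finrank ℚ K = 3 →
    (∃ P S : ℤ, P ≠ 0 ∧ ∃ x : K, x ∉ (⊥ : IntermediateField ℚ K) ∧ x ^ 3 - P * x + S = 0) ∧
    ∀ P S : ℤ, P ≠ 0 → ∀ x : K, x ∉ (⊥ : IntermediateField ℚ K) → x ^ 3 - P * x + S = 0 →
      IntermediateField.adjoin ℚ {(P * x + S : K) ^ 2} = (⊤ : IntermediateField ℚ K) ∧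
      ∀ p : ℕ, p.Prime → ∃ m : ℕ, 1 ≤ m ∧ ∀ v : ℕ, 1 ≤ v → m ∣ v → ∃ C : ℕ,
        ∀ h : ℕ → ℤ, SignFunction h → h p = -1 → ∀ X : ℕ, 1 ≤ X →
          Both h (minpoly ℤ ((v : K) * (P * x + S) ^ 2)) X (C * X ^ 6)

/-- (6) Every Galois cubic field: explicit generators, without a dilation. -/
def A6 : Prop :=
  (∀ A M c : ℤ, 2 ≤ |M| → ∃ C₀ : ℕ, ∀ h : ℕ → ℤ, SignFunction h →
    (∃ p : ℕ, p.Prime ∧ (p : ℤ) ∣ M ∧ h p = -1) → ∀ x : ℕ, 1 ≤ x →
      Both h ((X ^ 3 - C A * X ^ 2 - C (M * (A + 3 * M)) * X - C (M ^ 3)).comp (X + C c))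
        x (C₀ * x ^ 2)) ∧
  (∀ (K : Type) [Field K] [NumberField K] [IsGalois ℚ K], Module.finrank ℚ K = 3 →
    ∃ A M : ℤ, 2 ≤ |M| ∧ ∃ t : K,
      minpoly ℤ t = X ^ 3 - C A * X ^ 2 - C (M * (A + 3 * M)) * X - C (M ^ 3) ∧
      IntermediateField.adjoin ℚ {t} = (⊤ : IntermediateField ℚ K))

/-- (7) Pure cubic polynomials. -/
def A7 : Prop :=
  ∀ h : ℕ → ℤ, SignFunction h → ∀ p : ℕ, p.Prime → h p = -1 → ∀ b : ℤ, b ≠ 0 →
    ∃ k : ℕ, 1 ≤ k ∧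
      ((∀ N : ℕ, ∀ s : ℤ, (s = 1 ∨ s = -1) →
        ∃ n : ℕ, N ≤ n ∧ h ((n : ℤ) ^ 3 + b * k ^ 3).natAbs = s) ∨
      (∀ N : ℕ, ∀ s : ℤ, (s = 1 ∨ s = -1) →
        ∃ n : ℕ, N ≤ n ∧ h ((n : ℤ) ^ 3 - b * k ^ 3).natAbs = s))

/-- (8) An example. -/
def A8 : Prop :=
  ∃ C₀ : ℕ, ∀ h : ℕ → ℤ, SignFunction h → (h 2 = -1 ∨ h 3 = -1) → ∀ x : ℕ, 1 ≤ x →
    Both h (X ^ 3 + X ^ 2 + 11 * X + 83) x (C₀ * x ^ 6)

/-- `λ` is one of the functions `h`. -/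
def A0 : Prop :=
  SignFunction (fun m : ℕ => liouville m) ∧ ∀ p : ℕ, p.Prime → liouville p = -1

theorem result : A0 ∧ A1 ∧ A2 ∧ A3 ∧ A4 ∧ A5 ∧ A6 ∧ A7 ∧ A8 := by
  have hcm : ∀ h : ℕ → ℤ, SignFunction h → Pool.Agent.Lib_helper11.CUB.CM h :=
    fun h hh => ⟨hh.values, hh.mul⟩
  have hcm3 : ∀ h : ℕ → ℤ, SignFunction h → Pool.Agent.Lib_helper3.CYC.CM h :=
    fun h hh => ⟨hh.values, hh.mul⟩
  refine ⟨⟨?_, ?_⟩, ?_, ?_, ?_, ?_, ?_, ⟨?_, ?_⟩, ?_, ?_⟩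
  · refine ⟨?_, ?_⟩
    · intro m hm
      have : (m : ℤ) ≠ 0 := by exact_mod_cast (by omega : m ≠ 0)
      simp only [liouville, if_neg this]
      exact neg_one_pow_eq_or ℤ _
    · intro m n hm hn
      have h1 : (m : ℤ) ≠ 0 := by exact_mod_cast (by omega : m ≠ 0)
      have h2 : (n : ℤ) ≠ 0 := by exact_mod_cast (by omega : n ≠ 0)
      have h3 : ((m * n : ℕ) : ℤ) ≠ 0 := by push_cast; exact mul_ne_zero h1 h2
      simp only [liouville, if_neg h1, if_neg h2, if_neg h3, Int.natAbs_natCast]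
      rw [ArithmeticFunction.cardFactors_mul (by omega) (by omega), pow_add]
  · intro p hp
    have : (p : ℤ) ≠ 0 := by exact_mod_cast hp.ne_zero
    simp only [liouville, if_neg this, Int.natAbs_natCast,
      ArithmeticFunction.cardFactors_apply_prime hp]
    norm_num
  · intro K _ _ h3 t hint ht p hp
    obtain ⟨m, hm, H⟩ := Pool.Agent.Lib_helper11.CUB.undilated h3 hint ht hp
    refine ⟨m, hm, fun v hv hmv => ?_⟩
    obtain ⟨C, hC⟩ := H v hv hmv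
    exact ⟨C, fun h hh hp1 x hx => hC h (hcm h hh) hp1 x hx⟩
  · intro K _ _ _ h3 t hint ht p hp
    obtain ⟨m, hm, H⟩ := Pool.Agent.Lib_helper3.CUBL.cyclic_count h3 hint ht hp
    refine ⟨m, hm, fun v hv hmv => ?_⟩
    obtain ⟨C, hC⟩ := H v hv hmv
    exact ⟨C, fun h hh hp1 x hx => ⟨fun s hs => (hC h (hcm h hh) hp1 s hs x hx).1,
      fun s hs => (hC h (hcm h hh) hp1 s hs x hx).2⟩⟩
  · intro K _ _ h3 h hh p hp hp1
    exact Pool.Agent.Lib_helper11.CUB.classes_final h3 (hcm h hh) hp hp1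
  · intro K _ _ h3 α β hα hβ hα0 hab hba p hp
    obtain ⟨a, y, z, ha, e⟩ := hab
    obtain ⟨a', y', z', ha', e'⟩ := hba
    obtain ⟨m, hm, H⟩ := Pool.Agent.Lib_helper11.CUB.pair_final h3 hα hβ hα0 ha e ha' e' hp
    refine ⟨m, hm, fun v hv hmv => ?_⟩
    obtain ⟨C, hC⟩ := H v hv hmv
    refine ⟨C, fun h hh hp1 x hx => ?_⟩
    obtain ⟨γ, hγ, hs⟩ := hC h (hcm h hh) hp1 x hx
    rcases hγ with rfl | rfl
    · exact Or.inl hs
    · exact Or.inr hs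
  · intro K _ _ h3
    refine ⟨?_, ?_⟩
    · obtain ⟨P, S, x, hx, hx0, hP, -⟩ := Pool.Agent.Lib_helper11.CUB.exists_good (K := K) h3
      exact ⟨P, S, hP, x, hx0, hx⟩
    · intro P S hP x hx0 hx
      obtain ⟨h1, h2⟩ := Pool.Agent.Lib_helper11.CUB.square_final h3 hx hx0 hP
      refine ⟨?_, fun p hp => ?_⟩
      · have := (h1 1 one_ne_zero).2
        rwa [Int.cast_one, one_mul] at this
      · obtain ⟨m, hm, H⟩ := h2 p hp
        refine ⟨m, hm, fun v hv hmv => ?_⟩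
        obtain ⟨C, hC⟩ := H v hv hmv
        refine ⟨C, fun h hh hp1 X hX s hs => ?_⟩
        have e := (h1 v (by exact_mod_cast (by omega : v ≠ 0))).1
        rw [Int.cast_natCast] at e
        rw [e]
        exact hC h (hcm h hh) hp1 X hX s hs
  · intro A M c hM
    have hM0 : M ≠ 0 := by rintro rfl; norm_num at hM
    obtain ⟨C₀, hC⟩ := Pool.Agent.Lib_helper3.CYC.both_div (A := A) hM0 c
    refine ⟨C₀, fun h hh hp x hx s hs => ?_⟩
    obtain ⟨p, hp1, hp2, hp3⟩ := hp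
    obtain ⟨n, h1, h2, h4⟩ := hC h (hcm3 h hh) ⟨p, hp1.one_lt.le, hp2, hp3⟩ x hx s hs
    refine ⟨n, h1, h2, ?_⟩
    rw [← h4]
    congr 2
    simp only [Pool.Agent.Lib_helper3.CYC.fv, eval_comp, eval_add, eval_sub, eval_mul,
      eval_pow, eval_X, eval_C]
  · intro K _ _ _ h3
    exact Pool.Agent.Lib_helper3.CYC.exists_field K h3
  · intro h hh p hp hp1 b hb
    obtain ⟨k, hk, H⟩ := Pool.Agent.Lib_helper65.PC.pure (hcm h hh) ⟨p, hp.one_lt.le, hp1⟩ hb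
    refine ⟨k, hk, ?_⟩
    rcases H with H | H
    · left
      intro N s hs
      obtain ⟨n, h1, -, h2⟩ := H N s hs
      exact ⟨n, h1, h2⟩
    · right
      intro N s hs
      obtain ⟨n, h1, -, h2⟩ := H N s hs
      exact ⟨n, h1, by rw [sub_eq_add_neg]; exact h2⟩
  · obtain ⟨C₀, hC⟩ := Pool.Agent.Lib_helper96.CUB.example_small
    refine ⟨C₀, fun h hh hp x hx s hs => ?_⟩
    obtain ⟨n, h1, h2, h4⟩ := hC h (hcm h hh) hp x hx s hs
    refine ⟨n, h1, h2, ?_⟩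
    rw [← h4]
    simp

end Pool.Agent.Results.MP_892e4c_nt.IrreducibleCubics
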