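import Mathlib
import Pool.Agent.Lib_helper11.CUB2.Any
import Pool.Agent.Lib_helper3.CUBL.Final
import Pool.Agent.Lib_helper96.CUB.Example
import Pool.Agent.Lib_helper3.QUI.OneB
import Pool.Agent.Lib_helper74.QUI.Irr
import Pool.Agent.Lib_helper91.QUI.TowerFinal

/-!
# Both signs of the Liouville function along irreducible polynomials of odd degree

For an integer `t` of a number field `K`, `t ∉ ℚ`, let `f_t` be its minimal polynomial over `ℤ`, so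
that `f_{vt}(X) = v^d f_t(X/v)`. We show that `λ` takes both signs, infinitely often and in short
intervals, along `f` or along a partner of `f` for every irreducible cubic polynomial `f`; along
`f_{vt}` for every `t` in a cyclic cubic field, and for all `t` outside of at most two classes in
every cubic field; along `f_{vt}` for a set of elements `t` which is dense in `K ⊗ ℝ`, for every field
`K` of degree five; along one of `k` irreducible polynomials of degree `2^k - 1`; and along two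
explicit polynomials. All results hold for every completely multiplicative `h` with values `±1` which
is not identically `1`.
-/

namespace Pool.Agent.Results.MP_892e4c_nt.IrreducibleOddDegree

open Polynomial

/-- The Liouville function extended to the integers: `λ(0) = 0` and, for `m ≠ 0`,
`λ(m) = (-1)^Ω(|m|)`, where `Ω` counts prime factors with multiplicity. -/
def liouville (m : ℤ) : ℤ :=
  if m = 0 then 0 else (-1) ^ (ArithmeticFunction.cardFactors m.natAbs)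

/-- Completely multiplicative functions on the positive integers with values `1` and `-1`. -/
structure SignFunction (h : ℕ → ℤ) : Prop where
  values : ∀ m : ℕ, 1 ≤ m → h m = 1 ∨ h m = -1
  mul : ∀ m n : ℕ, 1 ≤ m → 1 ≤ n → h (m * n) = h m * h n

/-- Both signs of `h(|f(n)|)` occur for `n` in `[x, X]`. -/
def Both (h : ℕ → ℤ) (f : ℤ[X]) (x X : ℕ) : Prop :=
  ∀ s : ℤ, (s = 1 ∨ s = -1) → ∃ n : ℕ, x ≤ n ∧ n ≤ X ∧ h (f.eval (n : ℤ)).natAbs = s

/-- (1) All irreducible cubic polynomials `f`: one of `f` and the minimal polynomial of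
`v (u - r)^2`, where `f(u) = 0`. -/
def A1 : Prop :=
  ∀ (K : Type) [Field K] [NumberField K], Module.finrank ℚ K = 3 →
    ∀ f : ℤ[X], Irreducible f → f.natDegree = 3 → ∀ u : K, aeval u f = 0 →
      ∃ r : ℚ, (f.Monic → r = 0) ∧ ∀ p : ℕ, p.Prime →
        ∃ m : ℕ, 1 ≤ m ∧ ∀ v : ℕ, 1 ≤ v → m ∣ v → ∃ C : ℕ,
          ∀ h : ℕ → ℤ, SignFunction h → h p = -1 → ∀ x : ℕ, 1 ≤ x →
            Both h f x (C * x ^ 4) ∨
            Both h (minpoly ℤ ((v : K) * (u - r) ^ 2)) x (C * x ^ 4)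

/-- (2) Galois cubic fields: every integer `t ∉ ℚ`. -/
def A2 : Prop :=
  ∀ (K : Type) [Field K] [NumberField K] [IsGalois ℚ K], Module.finrank ℚ K = 3 →
    ∀ t : K, IsIntegral ℤ t → t ∉ (⊥ : IntermediateField ℚ K) → ∀ p : ℕ, p.Prime →
      ∃ m : ℕ, 1 ≤ m ∧ ∀ v : ℕ, 1 ≤ v → m ∣ v → ∃ C : ℕ,
        ∀ h : ℕ → ℤ, SignFunction h → h p = -1 → ∀ x : ℕ, 1 ≤ x →
          Both h (minpoly ℤ ((v : K) * t)) x (C * x ^ 2) ∧
          ∀ s : ℤ, (s = 1 ∨ s = -1) →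
            Real.log x / (4 * Real.log (C + 2)) - 1 ≤ (((Finset.Icc 1 x).filter (fun n : ℕ =>
              h ((minpoly ℤ ((v : K) * t)).eval (n : ℤ)).natAbs = s)).card : ℝ)

/-- (3) All cubic fields: all integers `t ∉ ℚ` outside of at most two classes. -/
def A3 : Prop :=
  ∀ (K : Type) [Field K] [NumberField K], Module.finrank ℚ K = 3 →
    ∀ h : ℕ → ℤ, SignFunction h → ∀ p : ℕ, p.Prime → h p = -1 →
      ∃ T₁ T₂ : K, ∀ t : K, IsIntegral ℤ t → t ∉ (⊥ : IntermediateField ℚ K) →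
        (¬ ∃ r w : ℚ, 0 < r ∧ t = r * T₁ + w) → (¬ ∃ r w : ℚ, 0 < r ∧ t = r * T₂ + w) →
        ∃ m : ℕ, 1 ≤ m ∧ ∀ v : ℕ, 1 ≤ v → m ∣ v → ∀ N : ℕ, ∀ s : ℤ, (s = 1 ∨ s = -1) →
          ∃ n : ℕ, N ≤ n ∧ h ((minpoly ℤ ((v : K) * t)).eval (n : ℤ)).natAbs = s

/-- (4) All fields of degree five: fourteen elements close to a given one. -/
def A4 : Prop :=
  ∀ (K : Type) [Field K] [NumberField K], Module.finrank ℚ K = 5 →
    ∀ y : K, y ∉ (⊥ : IntermediateField ℚ K) → ∀ ε : ℝ, 0 < ε → ∀ p : ℕ, p.Prime →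
      ∃ z : Fin 14 → K, (∀ i, z i ∉ (⊥ : IntermediateField ℚ K) ∧
          ∀ φ : K →+* ℂ, ‖φ (z i) - φ y‖ < ε) ∧
        ∃ m : ℕ, 1 ≤ m ∧ ∀ v : ℕ, 1 ≤ v → m ∣ v → (∀ i, IsIntegral ℤ ((v : K) * z i)) ∧
          ∃ C : ℕ, ∀ h : ℕ → ℤ, SignFunction h → h p = -1 →
            (∀ x : ℕ, 1 ≤ x → ∃ i, Both h (minpoly ℤ ((v : K) * z i)) x (C * x ^ 2)) ∧
            ∃ i, ∀ N : ℕ, ∀ s : ℤ, (s = 1 ∨ s = -1) →
              ∃ n : ℕ, N ≤ n ∧ h ((minpoly ℤ ((v : K) * z i)).eval (n : ℤ)).natAbs = s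

/-- (5) Degree `2 ^ k - 1`: one of `k` polynomials. -/
def A5 : Prop :=
  ∀ k : ℕ, 2 ≤ k → ∀ p : ℕ, p.Prime → ∃ f : Fin k → ℤ[X],
    (∀ i, (f i).Monic ∧ Irreducible (f i) ∧ (f i).natDegree = 2 ^ k - 1) ∧
    ∃ C : ℕ, ∀ h : ℕ → ℤ, SignFunction h → h p = -1 → ∀ x : ℕ, 1 ≤ x →
      ∃ i, Both h (f i) x (C * x) ∨ Both h ((f i).comp (-X)) x (C * x)

/-- (6) Two examples. -/
def A6 : Prop :=
  (∃ C₀ : ℕ, ∀ h : ℕ → ℤ, SignFunction h → (h 2 = -1 ∨ h 3 = -1) → ∀ x : ℕ, 1 ≤ x →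
    Both h (X ^ 3 + X ^ 2 + 11 * X + 83) x (C₀ * x ^ 6)) ∧
  ∀ f : ℤ[X], f = X ^ 5 + 4 * X ^ 4 - 236 * X ^ 3 - 512 * X ^ 2 + 10784 * X - 7712 →
    Irreducible f ∧ ∀ h : ℕ → ℤ, SignFunction h → h 2 = -1 → ∀ x : ℕ, 1 ≤ x →
      Both h f x (110 * x) ∨ Both h (f.comp (-X)) x (110 * x)

/-- `λ` is one of the functions `h`. -/
def A0 : Prop :=
  SignFunction (fun m : ℕ => liouville m) ∧ ∀ p : ℕ, p.Prime → liouville p = -1

theorem result : A0 ∧ A1 ∧ A2 ∧ A3 ∧ A4 ∧ A5 ∧ A6 := by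
  have hcm : ∀ h : ℕ → ℤ, SignFunction h → Pool.Agent.Lib_helper11.CUB.CM h :=
    fun h hh => ⟨hh.values, hh.mul⟩
  have hside : ∀ (h : ℕ → ℤ) (f : ℤ[X]) (x Y : ℕ), (∃ e : ℤ, (e = 1 ∨ e = -1) ∧
      ∀ s : ℤ, (s = 1 ∨ s = -1) → ∃ n : ℕ, x ≤ n ∧ n ≤ Y ∧ h (f.eval (e * n)).natAbs = s) →
      Both h f x Y ∨ Both h (f.comp (-X)) x Y := by
    rintro h f x Y ⟨e, he, H⟩
    rcases he with rfl | rfl
    · left
      intro s hs
      obtain ⟨n, h1, h2, h3⟩ := H s hs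
      exact ⟨n, h1, h2, by rwa [one_mul] at h3⟩
    · right
      intro s hs
      obtain ⟨n, h1, h2, h3⟩ := H s hs
      refine ⟨n, h1, h2, ?_⟩
      rw [eval_comp, eval_neg, eval_X]
      rwa [neg_one_mul] at h3
  refine ⟨⟨?_, ?_⟩, ?_, ?_, ?_, ?_, ?_, ?_, ?_⟩
  · refine ⟨?_, ?_⟩
    · intro m hm
      have : (m : ℤ) ≠ 0 := by exact_mod_cast (by omega : m ≠ 0)
      simp only [liouville, if_neg this]
      exact neg_one_pow_eq_or ℤ _
    · intro m n hm hn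
      have h1 : (m : ℤ) ≠ 0 := by exact_mod_cast (by omega : m ≠ 0)
      have h2 : (n : ℤ) ≠ 0 := by exact_mod_cast (by omega : n ≠ 0)
      have h3 : ((m * n : ℕ) : ℤ) ≠ 0 := by push_cast; exact mul_ne_zero h1 h2
      simp only [liouville, if_neg h1, if_neg h2, if_neg h3, Int.natAbs_natCast]
      rw [ArithmeticFunction.cardFactors_mul (by omega) (by omega), pow_add]
  · intro p hp
    have : (p : ℤ) ≠ 0 := by exact_mod_cast hp.ne_zero
    simp only [liouville, if_neg this, Int.natAbs_natCast,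
      ArithmeticFunction.cardFactors_apply_prime hp]
    norm_num
  · intro K _ _ h3 f hf hd u hu
    obtain ⟨r, hr, H0⟩ := Pool.Agent.Lib_helper11.CUB2.any_cubic h3 hf hd hu
    refine ⟨r, hr, fun p hp => ?_⟩
    obtain ⟨m, hm, H⟩ := H0 p hp
    refine ⟨m, hm, fun v hv hmv => ?_⟩
    obtain ⟨C, hC⟩ := H v hv hmv
    exact ⟨C, fun h hh hp1 x hx => hC h (hcm h hh) hp1 x hx⟩
  · intro K _ _ _ h3 t hint ht p hp
    obtain ⟨m, hm, H⟩ := Pool.Agent.Lib_helper3.CUBL.cyclic_count h3 hint ht hp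
    refine ⟨m, hm, fun v hv hmv => ?_⟩
    obtain ⟨C, hC⟩ := H v hv hmv
    exact ⟨C, fun h hh hp1 x hx => ⟨fun s hs => (hC h (hcm h hh) hp1 s hs x hx).1,
      fun s hs => (hC h (hcm h hh) hp1 s hs x hx).2⟩⟩
  · intro K _ _ h3 h hh p hp hp1
    exact Pool.Agent.Lib_helper11.CUB.classes_final h3 (hcm h hh) hp hp1
  · intro K _ _ h5 y hy ε hε p hp
    obtain ⟨z, hz, m, hm, H⟩ := Pool.Agent.Lib_helper3.QUI.quintics1 h5 hy hε hp
    refine ⟨z, hz, m, hm, fun v hv hmv => ?_⟩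
    obtain ⟨h1, C, hC⟩ := H v hv hmv
    exact ⟨h1, C, fun h hh hp1 => hC h (hcm h hh) hp1⟩
  · intro k hk p hp
    obtain ⟨f, hf, C, hC⟩ := Pool.Agent.Lib_helper91.QUI.tower_signs k hk p hp
    refine ⟨f, hf, C, fun h hh hp1 x hx => ?_⟩
    obtain ⟨i, hi⟩ := hC h (hcm h hh) hp1 x hx
    exact ⟨i, hside h (f i) x _ hi⟩
  · obtain ⟨C₀, hC⟩ := Pool.Agent.Lib_helper96.CUB.example_small
    refine ⟨C₀, fun h hh hp x hx s hs => ?_⟩
    obtain ⟨n, h1, h2, h4⟩ := hC h (hcm h hh) hp x hx s hs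
    refine ⟨n, h1, h2, ?_⟩
    rw [← h4]
    simp
  · intro f hf
    obtain ⟨⟨h1, h2⟩, -⟩ := Pool.Agent.Lib_helper74.QUI.explicit_quintics
    rw [← hf] at h1 h2
    exact ⟨h1, fun h hh hp1 x hx => hside h f x _ (h2 h (hcm h hh) hp1 x hx)⟩

end Pool.Agent.Results.MP_892e4c_nt.IrreducibleOddDegree
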